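import Mathlib

set_option autoImplicit false

/-!
# Tensor squares of complexes over truncated polynomial rings: definitions and statements of the parts
-/

namespace Pool.Agent.N672.TC

/-- the twisted involution on matrices: apply `s` to the entries and permute rows and columns by `t` -/
def bar {B : Type} [CommRing B] {σ : Type} (t : σ ≃ σ) (s : B →+* B) (u : Matrix σ σ B) : Matrix σ σ B :=
  (u.map s).submatrix t t

/-- doubles of an augmented ring `B`: a ring with involution `s`, maps `ι : B → B''`, `π : B'' → B`, such that every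
cocycle that is trivial modulo the augmentation is a coboundary -/
def Good (k B : Type) [Field k] [CommRing B] (e : B →+* k) : Prop :=
  ∃ (B2 : Type) (_ : CommRing B2) (s : B2 →+* B2) (ι : B →+* B2) (π : B2 →+* B) (e2 : B2 →+* k),
    (2 : B2) = 0 ∧ (∀ b, s (s b) = b) ∧ (∀ b, π (s b) = π b) ∧ (∀ b, π (ι b) = b) ∧
    (∀ b, e2 (ι b) = e b) ∧ (∀ b, e2 (s b) = e2 b) ∧
    ∀ (σ : Type) [Fintype σ] [DecidableEq σ] (t : σ ≃ σ), (∀ i, t (t i) = i) →
      ∀ u : Matrix σ σ B2, u * bar t s u = 1 → u.map e2 = 1 →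
        ∃ G G' : Matrix σ σ B2, G * G' = 1 ∧ u * bar t s G = G

/-- the ideal of the squares of the variables -/
noncomputable def Isq (k : Type) [Field k] (d : ℕ) : Ideal (MvPolynomial (Fin d) k) :=
  Ideal.span (Set.range (fun i : Fin d => (MvPolynomial.X i : MvPolynomial (Fin d) k) ^ 2))

/-- STP: adjoining one variable of square zero. -/
def STP_stm : Prop := ∀ (k B : Type) [Field k] [CommRing B] (e : B →+* k), Good k B e →
  Good k (TrivSqZeroExt B B) (e.comp (TrivSqZeroExt.fstHom B B B).toRingHom)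

/-- ISO: the truncated polynomial ring in `d + 1` variables is the ring of dual numbers over the one in `d`. -/
def ISO_stm : Prop := ∀ (k : Type) [Field k] (d : ℕ),
  Nonempty ((MvPolynomial (Fin 0) k ⧸ Isq k 0) ≃ₐ[k] k) ∧
  Nonempty ((MvPolynomial (Fin (d + 1)) k ⧸ Isq k (d + 1)) ≃ₐ[k]
    TrivSqZeroExt (MvPolynomial (Fin d) k ⧸ Isq k d) (MvPolynomial (Fin d) k ⧸ Isq k d))

/-- LOW: a homogeneous operator of degree -1 has smaller rank than its sum with one of degree 0. -/
def LOW_stm : Prop := ∀ (k R : Type) [Field k] [AddCommGroup R] [Module k R] [Module.Finite k R]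
  (ι : Type) [Fintype ι] [DecidableEq ι] (w : ι → ℕ) (f g : (ι → R) →ₗ[k] (ι → R)),
  (∀ (s : ℕ) (x : ι → R), (∀ i, w i ≠ s → x i = 0) → ∀ i, w i + 1 ≠ s → f x i = 0) →
  (∀ (s : ℕ) (x : ι → R), (∀ i, w i ≠ s → x i = 0) → ∀ i, w i ≠ s → g x i = 0) →
  Module.finrank k (LinearMap.range f) ≤ Module.finrank k (LinearMap.range (f + g))

/-- SYM: the operator `1 + swap`. -/
def SYM_stm : Prop := ∀ (k R : Type) [Field k] [CharP k 2] [AddCommGroup R] [Module k R] [Module.Finite k R]
  (n : ℕ) (g : (Fin n × Fin n → R) →ₗ[k] (Fin n × Fin n → R)),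
  (∀ x p, g x p = x p + x p.swap) →
  Module.finrank k (LinearMap.range g) + n * Module.finrank k R ≤ Module.finrank k (LinearMap.ker g)

/-- TRV: the cocycle `1 + D ⊗ 1 + 1 ⊗ D` is a coboundary. -/
def TRV_stm : Prop := ∀ (k B : Type) [Field k] [CommRing B] (e : B →+* k), Good k B e →
  ∀ (n : ℕ) (D : Matrix (Fin n) (Fin n) B), D * D = 0 → D.map e = 0 →
    ∃ G G' : Matrix (Fin n × Fin n) (Fin n × Fin n) B, G * G' = 1 ∧
      (1 + (Matrix.kronecker D (1 : Matrix (Fin n) (Fin n) B) +
        Matrix.kronecker (1 : Matrix (Fin n) (Fin n) B) D)) * G.submatrix Prod.swap Prod.swap = G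

end Pool.Agent.N672.TC
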